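import Mathlib

set_option autoImplicit false

/-!
# Counting the classes modulo `q` which satisfy conditions modulo the prime divisors of `q`
-/

namespace Pool.Agent.N895.PG

open Finset

/-- the classes modulo `q` avoiding the conditions at the prime divisors of `q` -/
def Av (Q : ℕ → ℕ → Prop) (q b : ℕ) : Prop := ∀ p : ℕ, p.Prime → p ∣ q → ¬ Q p b

open Classical in
/-- the number of these classes -/
noncomputable def NA (Q : ℕ → ℕ → Prop) (q : ℕ) : ℕ := ((range q).filter (fun b => Av Q q b)).card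

open Classical in
/-- the number of the classes of the condition at `p` -/
noncomputable def nu (Q : ℕ → ℕ → Prop) (p : ℕ) : ℕ := ((range p).filter (fun b => Q p b)).card

lemma av_mod (Q : ℕ → ℕ → Prop) (hQ : ∀ p m, Q p m ↔ Q p (m % p)) (a c x : ℕ) (hac : a ∣ c) :
    Av Q a x ↔ Av Q a (x % c) := by
  unfold Av
  refine forall_congr' fun p => forall_congr' fun hp => forall_congr' fun hpa => ?_
  rw [hQ p x, hQ p (x % c), Nat.mod_mod_of_dvd x (hpa.trans hac)]

lemma NA_mul (Q : ℕ → ℕ → Prop) (hQ : ∀ p m, Q p m ↔ Q p (m % p)) (a b : ℕ) (ha : 0 < a) (hb : 0 < b)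
    (hab : Nat.Coprime a b) : NA Q (a * b) = NA Q a * NA Q b := by
  classical
  unfold NA
  rw [← Finset.card_product]
  apply Finset.card_bij (fun x _ => (x % a, x % b))
  · intro x hx
    rw [mem_filter, mem_range] at hx
    rw [mem_product, mem_filter, mem_filter, mem_range, mem_range]
    refine ⟨⟨Nat.mod_lt _ ha, ?_⟩, ⟨Nat.mod_lt _ hb, ?_⟩⟩
    · rw [← av_mod Q hQ a a x dvd_rfl]
      exact fun p hp hpa => hx.2 p hp (hpa.mul_right b)
    · rw [← av_mod Q hQ b b x dvd_rfl]
      exact fun p hp hpb => hx.2 p hp (hpb.mul_left a)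
  · intro x hx y hy hxy
    rw [mem_filter, mem_range] at hx hy
    rw [Prod.mk.injEq] at hxy
    have h1 : x ≡ y [MOD a * b] := (Nat.modEq_and_modEq_iff_modEq_mul hab).1 ⟨hxy.1, hxy.2⟩
    exact Nat.ModEq.eq_of_lt_of_lt h1 hx.1 hy.1
  · rintro ⟨u, v⟩ h
    rw [mem_product, mem_filter, mem_filter, mem_range, mem_range] at h
    obtain ⟨⟨hu, hu2⟩, ⟨hv, hv2⟩⟩ := h
    dsimp only at hu hu2 hv hv2
    obtain ⟨w, hw1, hw2⟩ := Nat.chineseRemainder hab u v
    refine ⟨w % (a * b), ?_, ?_⟩
    · rw [mem_filter, mem_range]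
      refine ⟨Nat.mod_lt _ (Nat.mul_pos ha hb), ?_⟩
      intro p hp hpd
      rcases (Nat.Prime.dvd_mul hp).1 hpd with h | h
      · rw [hQ, Nat.mod_mod_of_dvd w hpd]
        have h3 := hu2 p hp h
        have h4 : w % p = u % p := (hw1.of_dvd h)
        rw [h4, ← hQ]
        exact h3
      · rw [hQ, Nat.mod_mod_of_dvd w hpd]
        have h3 := hv2 p hp h
        have h4 : w % p = v % p := (hw2.of_dvd h)
        rw [h4, ← hQ]
        exact h3
    · rw [Nat.mod_mod_of_dvd w (Dvd.intro b rfl), Nat.mod_mod_of_dvd w (Dvd.intro_left a rfl)]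
      have h5 : w % a = u % a := hw1
      have h6 : w % b = v % b := hw2
      rw [h5, h6, Nat.mod_eq_of_lt hu, Nat.mod_eq_of_lt hv]

lemma NA_pow (Q : ℕ → ℕ → Prop) (hQ : ∀ p m, Q p m ↔ Q p (m % p)) (p n : ℕ) (hp : p.Prime) :
    NA Q (p ^ (n + 1)) = p ^ n * (p - nu Q p) := by
  classical
  have h0 : nu Q p + ((range p).filter (fun b => ¬ Q p b)).card = p := by
    unfold nu
    have := Finset.card_filter_add_card_filter_not (s := range p) (fun b => Q p b)
    rw [card_range] at this
    exact this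
  have h1 : ((range p).filter (fun b => ¬ Q p b)).card = p - nu Q p := by omega
  rw [← h1, ← card_range (p ^ n), ← Finset.card_product]
  unfold NA
  have hppos := hp.pos
  apply Finset.card_bij (fun x _ => (x / p, x % p))
  · intro x hx
    rw [mem_filter, mem_range] at hx
    rw [mem_product, mem_filter, mem_range, mem_range]
    refine ⟨?_, Nat.mod_lt _ hp.pos, ?_⟩
    · rw [Nat.div_lt_iff_lt_mul hp.pos, ← pow_succ]
      exact hx.1
    · rw [← hQ]
      exact hx.2 p hp (dvd_pow_self p (by omega))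
  · intro x hx y hy hxy
    rw [Prod.mk.injEq] at hxy
    rw [← Nat.div_add_mod x p, ← Nat.div_add_mod y p, hxy.1, hxy.2]
  · rintro ⟨u, v⟩ h
    rw [mem_product, mem_filter, mem_range, mem_range] at h
    obtain ⟨hu, hv, hv2⟩ := h
    dsimp only at hu hv hv2
    refine ⟨p * u + v, ?_, ?_⟩
    · rw [mem_filter, mem_range]
      constructor
      · calc p * u + v < p * u + p := by omega
          _ = p * (u + 1) := by ring
          _ ≤ p * p ^ n := Nat.mul_le_mul_left p (by omega)
          _ = p ^ (n + 1) := by rw [pow_succ]; ring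
      · intro p' hp' hpd
        have h2 : p' = p := (Nat.prime_dvd_prime_iff_eq hp' hp).1 (hp'.dvd_of_dvd_pow hpd)
        subst h2
        rw [hQ, Nat.mul_add_mod, Nat.mod_eq_of_lt hv]
        exact hv2
    · rw [Prod.mk.injEq]
      constructor
      · rw [Nat.mul_add_div hp.pos, Nat.div_eq_of_lt hv, add_zero]
      · rw [Nat.mul_add_mod, Nat.mod_eq_of_lt hv]

/-- **The number of the classes.** -/
theorem NA_eq (Q : ℕ → ℕ → Prop) (hQ : ∀ p m, Q p m ↔ Q p (m % p)) (hν : ∀ p : ℕ, nu Q p ≤ p) (q : ℕ)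
    (hq : 0 < q) : (NA Q q : ℝ) = q * ∏ p ∈ q.primeFactors, (1 - (nu Q p : ℝ) / p) := by
  classical
  induction q using Nat.recOnPosPrimePosCoprime with
  | prime_pow p n hp hn =>
      obtain ⟨m, rfl⟩ : ∃ m, n = m + 1 := ⟨n - 1, by omega⟩
      rw [NA_pow Q hQ p m hp, Nat.primeFactors_prime_pow (by omega) hp, prod_singleton]
      have hp0 : (p : ℝ) ≠ 0 := by exact_mod_cast hp.ne_zero
      rw [Nat.cast_mul, Nat.cast_sub (hν p)]
      push_cast
      rw [pow_succ]
      field_simp
  | zero => omega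
  | one =>
      have h1 : NA Q 1 = 1 := by
        unfold NA
        rw [Finset.card_eq_one]
        refine ⟨0, ?_⟩
        ext b
        rw [mem_filter, mem_range, mem_singleton]
        constructor
        · rintro ⟨h, _⟩
          omega
        · rintro rfl
          refine ⟨by omega, fun p hp h => ?_⟩
          exact absurd (Nat.dvd_one.1 h) hp.one_lt.ne'
      rw [h1]
      simp
  | coprime a b ha hb hab iha ihb =>
      rw [NA_mul Q hQ a b (by omega) (by omega) hab, Nat.Coprime.primeFactors_mul hab,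
        prod_union (Nat.Coprime.disjoint_primeFactors hab)]
      push_cast
      rw [iha (by omega), ihb (by omega)]
      ring

end Pool.Agent.N895.PG
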