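import Pool.Agent.R463.PP9
import Pool.Agent.TH464.PO.PolyExact
import Pool.Agent.N895.PG.Crt

set_option autoImplicit false

/-!
# The joint Poisson law for the gaps and the residues of the sifted values of systems of polynomials
-/

namespace Pool.Agent.N895.PG

open Polynomial Finset Filter
open Pool.Agent.W123.RP Pool.Agent.H373R2.T7 Pool.Agent.W123.RU Pool.Agent.W123.RU.Poly
open Pool.Agent.TH464.PW Pool.Agent.TH464.PO Pool.Agent.Y879.GL Pool.Agent.R463.PP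

lemma nuB_eq_nu (Q : ℕ → ℕ → Prop) (p : ℕ) : nuB Q p = nu Q p := by
  rfl

open Classical in
/-- the classes modulo `q` avoiding the conditions at the prime divisors of `q` -/
noncomputable def Bs (Q : ℕ → ℕ → Prop) (q : ℕ) : Finset ℕ := (range q).filter (fun b => Av Q q b)

lemma Bs_card (Q : ℕ → ℕ → Prop) (q : ℕ) : (Bs Q q).card = NA Q q := rfl

/-- the local factor at `q` -/
noncomputable def Fq (Q : ℕ → ℕ → Prop) (q : ℕ) : ℝ := ∏ p ∈ q.primeFactors, (1 - (nu Q p : ℝ) / p)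

lemma nuB_Qd_dvd (Q : ℕ → ℕ → Prop) (q p : ℕ) (h : p ∣ q) : nuB (Qd Q q) p = 0 := by
  classical
  unfold nuB
  rw [Finset.card_eq_zero]
  ext r
  rw [mem_filter]
  constructor
  · rintro ⟨_, h2⟩
    exact absurd h h2.1
  · intro h1
    simp at h1

lemma nuB_Qd_not (Q : ℕ → ℕ → Prop) (q p : ℕ) (h : ¬ p ∣ q) : nuB (Qd Q q) p = nuB Q p := by
  classical
  unfold nuB
  congr 1
  apply filter_congr
  intro r _
  unfold Qd
  simp [h]

lemma V_split (Q : ℕ → ℕ → Prop) (q y : ℕ) (hq : 1 ≤ q) (hy : ∀ p : ℕ, p.Prime → p ∣ q → p ≤ y) :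
    Vq Q y = Vq (Qd Q q) y * Fq Q q := by
  classical
  unfold Vq Fq
  have h1 : q.primeFactors = (pz y).filter (fun p => p ∣ q) := by
    ext p
    rw [mem_filter, mem_pz, Nat.mem_primeFactors]
    constructor
    · rintro ⟨h1, h2, _⟩
      exact ⟨⟨hy p h1 h2, h1⟩, h2⟩
    · rintro ⟨⟨_, h1⟩, h2⟩
      exact ⟨h1, h2, by omega⟩
  rw [h1, ← Finset.prod_filter_mul_prod_filter_not (pz y) (fun p => p ∣ q) (fun p => (1 - (nuB Q p : ℝ) / p)),
    ← Finset.prod_filter_mul_prod_filter_not (pz y) (fun p => p ∣ q) (fun p => (1 - (nuB (Qd Q q) p : ℝ) / p))]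
  have h2 : ∏ p ∈ (pz y).filter (fun p => p ∣ q), (1 - (nuB (Qd Q q) p : ℝ) / p) = 1 := by
    apply Finset.prod_eq_one
    intro p hp
    rw [nuB_Qd_dvd Q q p (mem_filter.1 hp).2]
    simp
  have h3 : ∏ p ∈ (pz y).filter (fun p => ¬ p ∣ q), (1 - (nuB (Qd Q q) p : ℝ) / p) =
      ∏ p ∈ (pz y).filter (fun p => ¬ p ∣ q), (1 - (nuB Q p : ℝ) / p) := by
    apply Finset.prod_congr rfl
    intro p hp
    rw [nuB_Qd_not Q q p (mem_filter.1 hp).2]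
  have h4 : ∏ p ∈ (pz y).filter (fun p => p ∣ q), (1 - (nuB Q p : ℝ) / p) =
      ∏ p ∈ (pz y).filter (fun p => p ∣ q), (1 - (nu Q p : ℝ) / p) := by
    apply Finset.prod_congr rfl
    intro p _
    rw [nuB_eq_nu]
  rw [h2, h3, h4]
  ring

lemma GB_eq (Q : ℕ → ℕ → Prop) (hQ : ∀ p m, Q p m ↔ Q p (m % p)) (q y : ℕ) (hq : 1 ≤ q)
    (hy : ∀ p : ℕ, p.Prime → p ∣ q → p ≤ y) : GB (Sf (Qd Q q) y) q (Bs Q q) = Sf Q y := by
  classical
  funext m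
  apply propext
  unfold GB Sf Bs
  rw [mem_filter, mem_range]
  constructor
  · rintro ⟨⟨_, h1⟩, h2⟩ p hp hQp
    by_cases hd : p ∣ q
    · apply h1 p (mem_pz.1 hp).2 hd
      rw [hQ, Nat.mod_mod_of_dvd m hd, ← hQ]
      exact hQp
    · exact h2 p hp ⟨hd, hQp⟩
  · intro h1
    refine ⟨⟨Nat.mod_lt _ (by omega), ?_⟩, ?_⟩
    · intro p hp hd hQp
      rw [hQ, Nat.mod_mod_of_dvd m hd, ← hQ] at hQp
      exact h1 p (mem_pz.2 ⟨hy p hp hd, hp⟩) hQp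
    · intro p hp hQp
      exact h1 p hp hQp.2

open Classical in
/-- the number of the patterns of gaps and residues -/
noncomputable def Cp (Q : ℕ → ℕ → Prop) (y q l : ℕ) (c s T : ℕ → ℕ) (Z Y : ℕ) : ℕ :=
  ((Ioc Z (Z + Y)).filter (fun n => Sf Q y n ∧ n % q = c 0 ∧
    Ev (Sf Q y) q l (fun j => c (j + 1)) s T n)).card

/-- **The joint law**, abstract form. -/
theorem law (c0 q l : ℕ) (hc : 1 ≤ c0) (hq : 1 ≤ q) (ε : ℝ) (hε : 0 < ε) (B : Finset ℕ)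
    (hB : B ⊆ range q) (hB0 : 1 ≤ B.card) :
    ∃ P : Par, ∀ (Q : ℕ → ℕ → Prop) (Y y : ℕ), Bs Q q = B → (∀ p m, Q p m ↔ Q p (m % p)) →
      (∀ p : ℕ, p.Prime → p ∣ q → p ≤ y) → Ok P c0 q (Qd Q q) Y y →
      ∀ (Z : ℕ) (c s T : ℕ → ℕ), (∀ j ≤ l, c j ∈ B) → (∀ j < l, s j ≤ T j) →
        |(Cp Q y q l c s T Z Y : ℝ) - Y * Vq Q y / (B.card : ℝ) ^ (l + 1) *
          ∏ j ∈ range l, (Real.exp (-(Vq Q y * s j)) - Real.exp (-(Vq Q y * T j)))| ≤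
          ε * (Y * Vq Q y) := by
  obtain ⟨P, hP⟩ := runs c0 q l hc hq B hB hB0 ε hε
  refine ⟨P, ?_⟩
  intro Q Y y hBs hQ hy hOk Z c s T hcB hsT
  have h1 := hP (Qd Q q) Y y hOk Z (c 0) (hcB 0 (Nat.zero_le _)) (fun j => c (j + 1)) s T
    (fun j hj => hcB (j + 1) (by omega)) hsT
  have hcnt : cnt (Qd Q q) y q l B (c 0) (fun j => c (j + 1)) s T Z Y = Cp Q y q l c s T Z Y := by
    unfold cnt Cp Pat
    rw [← hBs, GB_eq Q hQ q y hq hy]
    refine congrArg Finset.card ?_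
    ext n
    simp only [mem_filter]
  rw [hcnt] at h1
  have hBr : (1 : ℝ) ≤ B.card := by exact_mod_cast hB0
  have hB0r : (0 : ℝ) < B.card := by linarith
  have hqr : (0 : ℝ) < q := by exact_mod_cast hq
  have hNA : (B.card : ℝ) = q * Fq Q q := by
    rw [← hBs, Bs_card, NA_eq Q hQ (fun p => by rw [← nuB_eq_nu]; exact nuB_le Q p) q (by omega)]
    rfl
  have hV : Vq Q y = B.card * Vq (Qd Q q) y / q := by
    rw [V_split Q q y hq hy, hNA]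
    field_simp
  have hV' : Vq (Qd Q q) y / q = Vq Q y / B.card := by
    rw [hV, mul_div_assoc, mul_comm (B.card : ℝ), mul_div_assoc, div_self hB0r.ne', mul_one]
  have hgp : gp (Vq (Qd Q q) y) q l B s T =
      ∏ j ∈ range l, (Real.exp (-(Vq Q y * s j)) - Real.exp (-(Vq Q y * T j))) := by
    unfold gp
    rw [← hV]
  rw [hgp] at h1
  have e1 : (Y : ℝ) * Vq (Qd Q q) y / q = Y * Vq Q y / B.card := by
    rw [mul_div_assoc, hV', ← mul_div_assoc]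
  rw [e1] at h1
  have e2 : (Y : ℝ) * Vq Q y / B.card *
      ((∏ j ∈ range l, (Real.exp (-(Vq Q y * s j)) - Real.exp (-(Vq Q y * T j)))) / (B.card : ℝ) ^ l) =
      Y * Vq Q y / (B.card : ℝ) ^ (l + 1) *
          ∏ j ∈ range l, (Real.exp (-(Vq Q y * s j)) - Real.exp (-(Vq Q y * T j))) := by
    rw [pow_succ]
    field_simp
  rw [e2] at h1
  refine h1.trans ?_
  apply mul_le_mul_of_nonneg_left _ hε.le
  have hVnn : 0 ≤ (Y : ℝ) * Vq Q y := by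
    have : 0 < Vq (Qd Q q) y := Vq_pos _ hOk.adm y
    rw [hV]
    positivity
  exact div_le_self hVnn hBr

/-- **The joint law** for systems of polynomials, uniform version. -/
theorem law_polys (k D q l : ℕ) (hq : 1 ≤ q) (E δ θ ε : ℝ) (hE : 0 < E) (hδ : 0 < δ) (hθ : 0 < θ)
    (hε : 0 < ε) :
    ∃ r0 : ℕ, ∀ r : ℕ, r0 ≤ r → ∀ C : ℝ, ∀ᶠ X : ℕ in atTop, ∀ f : Fin k → ℤ[X],
      US k D ((X : ℝ) ^ E) ((X : ℝ) ^ δ) f →
      Vq (Q f) ⌊(X : ℝ) ^ (1 / (r : ℝ))⌋₊ ≤ C / Real.log X → ∀ Y : ℕ, (X : ℝ) ^ θ ≤ Y →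
      ∀ (Z : ℕ) (c s T : ℕ → ℕ), (∀ j ≤ l, c j ∈ Bs (Q f) q) → (∀ j < l, s j ≤ T j) →
        |(Cp (Q f) ⌊(X : ℝ) ^ (1 / (r : ℝ))⌋₊ q l c s T Z Y : ℝ) -
          Y * Vq (Q f) ⌊(X : ℝ) ^ (1 / (r : ℝ))⌋₊ / ((Bs (Q f) q).card : ℝ) ^ (l + 1) *
          ∏ j ∈ range l, (Real.exp (-(Vq (Q f) ⌊(X : ℝ) ^ (1 / (r : ℝ))⌋₊ * s j)) -
            Real.exp (-(Vq (Q f) ⌊(X : ℝ) ^ (1 / (r : ℝ))⌋₊ * T j)))| ≤
          ε * (Y * Vq (Q f) ⌊(X : ℝ) ^ (1 / (r : ℝ))⌋₊) := by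
  classical
  have : Nonempty Par := ⟨⟨0, 1, 0, 0, 1, 1, 1, le_rfl, one_pos, one_pos, one_pos⟩⟩
  -- the parameters for all possible sets of residues
  have hpar : ∀ B ∈ (range q).powerset, ∃ P : Par, 1 ≤ B.card → ∀ (Q : ℕ → ℕ → Prop) (Y y : ℕ), Bs Q q = B →
      (∀ p m, Q p m ↔ Q p (m % p)) → (∀ p : ℕ, p.Prime → p ∣ q → p ≤ y) → Ok P (k * D + 1) q (Qd Q q) Y y →
      ∀ (Z : ℕ) (c s T : ℕ → ℕ), (∀ j ≤ l, c j ∈ B) → (∀ j < l, s j ≤ T j) →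
        |(Cp Q y q l c s T Z Y : ℝ) - Y * Vq Q y / (B.card : ℝ) ^ (l + 1) *
          ∏ j ∈ range l, (Real.exp (-(Vq Q y * s j)) - Real.exp (-(Vq Q y * T j)))| ≤
          ε * (Y * Vq Q y) := by
    intro B hB
    by_cases hB0 : 1 ≤ B.card
    · obtain ⟨P, hP⟩ := law (k * D + 1) q l (by omega) hq ε hε B (mem_powerset.1 hB) hB0
      exact ⟨P, fun _ => hP⟩
    · exact ⟨⟨0, 1, 0, 0, 1, 1, 1, le_rfl, one_pos, one_pos, one_pos⟩, fun h => absurd h hB0⟩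
  choose! P hP using hpar
  have hr0 : ∀ B ∈ (range q).powerset, ∃ r0 : ℕ, ∀ r : ℕ, r0 ≤ r → ∀ Cv : ℝ, ∀ᶠ X : ℕ in atTop, ∀ f : Fin k → ℤ[X],
      US k D ((X : ℝ) ^ E) ((X : ℝ) ^ δ) f → ∀ q : ℕ,
      Vq (Qd (Q f) q) ⌊(X : ℝ) ^ (1 / (r : ℝ))⌋₊ ≤ Cv / Real.log X →
      ∀ Y : ℕ, (X : ℝ) ^ θ ≤ Y →
        Ok (P B) (k * D + 1) q (Qd (Q f) q) Y ⌊(X : ℝ) ^ (1 / (r : ℝ))⌋₊ := by
    intro B _
    exact ok_polys k D (P B) E δ θ hE hδ hθ
  choose! r0 hr0 using hr0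
  refine ⟨max 1 ((range q).powerset.sup r0), ?_⟩
  intro r hr C
  have hr1 : 1 ≤ r := (le_max_left _ _).trans hr
  have hrB : ∀ B ∈ (range q).powerset, r0 B ≤ r := fun B hB =>
    (Finset.le_sup hB).trans ((le_max_right _ _).trans hr)
  have hev : ∀ᶠ X : ℕ in atTop, ∀ B ∈ (range q).powerset, ∀ f : Fin k → ℤ[X],
      US k D ((X : ℝ) ^ E) ((X : ℝ) ^ δ) f → ∀ q' : ℕ,
      Vq (Qd (Q f) q') ⌊(X : ℝ) ^ (1 / (r : ℝ))⌋₊ ≤ (q * C) / Real.log X →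
      ∀ Y : ℕ, (X : ℝ) ^ θ ≤ Y →
        Ok (P B) (k * D + 1) q' (Qd (Q f) q') Y ⌊(X : ℝ) ^ (1 / (r : ℝ))⌋₊ := by
    rw [Filter.eventually_all_finset]
    intro B hB
    exact hr0 B hB r (hrB B hB) (q * C)
  have hlarge : ∀ᶠ X : ℕ in atTop, q ≤ ⌊(X : ℝ) ^ (1 / (r : ℝ))⌋₊ := by
    have hrr : (0 : ℝ) < 1 / r := by
      have : (0 : ℝ) < r := by exact_mod_cast hr1
      positivity
    have h1 : Tendsto (fun X : ℕ => (X : ℝ) ^ (1 / (r : ℝ))) atTop atTop :=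
      (tendsto_rpow_atTop hrr).comp tendsto_natCast_atTop_atTop
    filter_upwards [h1.eventually_ge_atTop (q : ℝ)] with X hX
    exact Nat.le_floor hX
  filter_upwards [hev, hlarge, eventually_ge_atTop 3] with X hX hXq hX3
  intro f hf hV Y hY Z c s T hc hsT
  obtain ⟨y, hy⟩ : ∃ y, y = ⌊(X : ℝ) ^ (1 / (r : ℝ))⌋₊ := ⟨_, rfl⟩
  rw [← hy] at hXq hV ⊢
  have hpy : ∀ p : ℕ, p.Prime → p ∣ q → p ≤ y := fun p _ hpd => (Nat.le_of_dvd (by omega) hpd).trans hXq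
  have hBs : Bs (Q f) q ∈ (range q).powerset := by
    rw [mem_powerset]
    exact filter_subset _ _
  have hper : ∀ p m, Q f p m ↔ Q f p (m % p) := per f
  have hB0 : 1 ≤ (Bs (Q f) q).card := card_pos.2 ⟨c 0, hc 0 (Nat.zero_le _)⟩
  have hadm : ∀ p : ℕ, p.Prime → nuB (Q f) p < p := us_adm hf
  have hVpos : 0 < Vq (Q f) y := Vq_pos _ hadm y
  have hlX : 0 < Real.log X := Real.log_pos (by
    have : (3 : ℝ) ≤ X := by exact_mod_cast hX3
    linarith)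
  have hC : 0 < C := by
    by_contra hcon
    have h1 : C / Real.log X ≤ 0 := div_nonpos_of_nonpos_of_nonneg (by linarith) hlX.le
    linarith
  have hqr : (0 : ℝ) < q := by exact_mod_cast hq
  -- the density at the primes which do not divide `q`
  have hV' : Vq (Qd (Q f) q) y ≤ (q * C) / Real.log X := by
    have h1 := V_split (Q f) q y hq hpy
    have h2 : ((Bs (Q f) q).card : ℝ) = q * Fq (Q f) q := by
      rw [Bs_card, NA_eq (Q f) hper (fun p => by rw [← nuB_eq_nu]; exact nuB_le (Q f) p) q (by omega)]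
      rfl
    have h3 : (1 : ℝ) ≤ q * Fq (Q f) q := by
      rw [← h2]
      exact_mod_cast hB0
    have h4 : 0 < Vq (Qd (Q f) q) y :=
      Vq_pos _ (fun p hp => (nuB_Qd (Q f) q p).trans_lt (hadm p hp)) y
    calc Vq (Qd (Q f) q) y = Vq (Qd (Q f) q) y * 1 := (mul_one _).symm
      _ ≤ Vq (Qd (Q f) q) y * (q * Fq (Q f) q) := mul_le_mul_of_nonneg_left h3 h4.le
      _ = q * Vq (Q f) y := by rw [h1]; ring
      _ ≤ q * (C / Real.log X) := mul_le_mul_of_nonneg_left hV hqr.le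
      _ = (q * C) / Real.log X := by ring
  have hOk := hX (Bs (Q f) q) hBs f hf q (by rw [← hy]; exact hV') Y hY
  rw [← hy] at hOk
  exact hP (Bs (Q f) q) hBs hB0 (Q f) Y y rfl hper hpy hOk Z c s T hc hsT

/-- **The joint law** for a fixed system of polynomials. -/
theorem law_fixed {k : ℕ} [NeZero k] (f : Fin k → ℤ[X]) (hf : Sys f) (hT : NoTr f) (q l : ℕ) (hq : 1 ≤ q)
    (θ ε : ℝ) (hθ : 0 < θ) (hε : 0 < ε) :
    ∃ r0 : ℕ, ∀ r : ℕ, r0 ≤ r → ∀ᶠ X : ℕ in atTop, ∀ Y : ℕ, (X : ℝ) ^ θ ≤ Y →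
      ∀ (Z : ℕ) (c s T : ℕ → ℕ), (∀ j ≤ l, c j ∈ Bs (Q f) q) → (∀ j < l, s j ≤ T j) →
        |(Cp (Q f) ⌊(X : ℝ) ^ (1 / (r : ℝ))⌋₊ q l c s T Z Y : ℝ) -
          Y * Vq (Q f) ⌊(X : ℝ) ^ (1 / (r : ℝ))⌋₊ / ((Bs (Q f) q).card : ℝ) ^ (l + 1) *
          ∏ j ∈ range l, (Real.exp (-(Vq (Q f) ⌊(X : ℝ) ^ (1 / (r : ℝ))⌋₊ * s j)) -
            Real.exp (-(Vq (Q f) ⌊(X : ℝ) ^ (1 / (r : ℝ))⌋₊ * T j)))| ≤
          ε * (Y * Vq (Q f) ⌊(X : ℝ) ^ (1 / (r : ℝ))⌋₊) := by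
  classical
  obtain ⟨D, hD⟩ : ∃ D : ℕ, ∀ i, (f i).natDegree ≤ D :=
    ⟨univ.sup (fun i => (f i).natDegree), fun i => Finset.le_sup (f := fun i => (f i).natDegree) (mem_univ i)⟩
  obtain ⟨H, hH⟩ : ∃ H : ℕ, ∀ i n, |(((f i).coeff n : ℤ) : ℝ)| ≤ H := by
    refine ⟨∑ i, ∑ n ∈ range (D + 1), ((f i).coeff n).natAbs, ?_⟩
    intro i n
    rw [show |(((f i).coeff n : ℤ) : ℝ)| = (((f i).coeff n).natAbs : ℝ) by
      rw [Nat.cast_natAbs, Int.cast_abs]]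
    by_cases hn : n ∈ range (D + 1)
    · have h1 : ((f i).coeff n).natAbs ≤ ∑ n ∈ range (D + 1), ((f i).coeff n).natAbs :=
        Finset.single_le_sum (f := fun n => ((f i).coeff n).natAbs) (fun _ _ => Nat.zero_le _) hn
      have h2 : ∑ n ∈ range (D + 1), ((f i).coeff n).natAbs ≤
          ∑ i, ∑ n ∈ range (D + 1), ((f i).coeff n).natAbs :=
        Finset.single_le_sum (f := fun i => ∑ n ∈ range (D + 1), ((f i).coeff n).natAbs)
          (fun _ _ => Nat.zero_le _) (mem_univ i)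
      have h3 := h1.trans h2
      exact_mod_cast h3
    · have h1 : (f i).coeff n = 0 := by
        apply coeff_eq_zero_of_natDegree_lt
        rw [mem_range] at hn
        have := hD i
        omega
      rw [h1]
      simp only [Int.natAbs_zero, Nat.cast_zero]
      positivity
  obtain ⟨v, Cv, hv, hCv, hVb⟩ := V_bounds f hf
  obtain ⟨r0, h0⟩ := law_polys k D q l hq 1 1 θ ε one_pos one_pos hθ hε
  refine ⟨max r0 2, ?_⟩
  intro r hr
  have hr2 : 2 ≤ r := (le_max_right _ _).trans hr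
  have hrr : (2 : ℝ) ≤ r := by exact_mod_cast hr2
  have hpow2 : Tendsto (fun X : ℕ => (X : ℝ) ^ (1 / (2 * r : ℝ))) atTop atTop :=
    (tendsto_rpow_atTop (by positivity)).comp tendsto_natCast_atTop_atTop
  have hlogX : Tendsto (fun X : ℕ => Real.log (X : ℝ)) atTop atTop :=
    Real.tendsto_log_atTop.comp tendsto_natCast_atTop_atTop
  filter_upwards [h0 r ((le_max_left _ _).trans hr) (2 * r * Cv), hpow2.eventually_ge_atTop 3,
    eventually_ge_atTop (max H 16), hlogX.eventually_ge_atTop (2 * r)] with X hX hX1 hX2 hX3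
  intro Y hY Z c s T hc hsT
  have hXH : (H : ℝ) ≤ X := by exact_mod_cast (le_max_left _ _).trans hX2
  have hX16 : 16 ≤ X := (le_max_right _ _).trans hX2
  have hX16r : (16 : ℝ) ≤ X := by exact_mod_cast hX16
  obtain ⟨hy1, hy2, hy3, hy4⟩ := level_low r hr2 X (by omega) (by linarith)
  refine hX f ?_ ?_ Y hY Z c s T hc hsT
  · refine ⟨hf.irr, fun i => (hf.deg i).ne', hD, fun i n => ?_, hf.adm, ?_⟩
    · rw [Real.rpow_one]
      exact (hH i n).trans hXH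
    · intro i j t ht _ hass
      obtain ⟨u, hu⟩ := hass
      obtain ⟨c', hc', hcu⟩ := Polynomial.isUnit_iff.1 u.isUnit
      have hl1 := hf.lead i
      have hl2 := hf.lead j
      have h1 : ((f j).comp (Polynomial.X + Polynomial.C (t : ℤ))).leadingCoeff = (f j).leadingCoeff := by
        rw [leadingCoeff_comp (by rw [natDegree_X_add_C]; exact one_ne_zero), leadingCoeff_X_add_C, one_pow,
          mul_one]
      have h2 : (f i).leadingCoeff * c' = (f j).leadingCoeff := by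
        rw [← h1, ← hu, leadingCoeff_mul, ← hcu, leadingCoeff_C]
      rcases Int.isUnit_iff.1 hc' with h3 | h3
      · rw [h3] at hcu
        rw [← hcu, map_one, mul_one] at hu
        exact hT i j t ht hu
      · rw [h3] at h2
        linarith
  · have hly : 1 ≤ Real.log (⌊(X : ℝ) ^ (1 / (r : ℝ))⌋₊ : ℝ) := by
      refine le_trans ?_ hy2
      rw [le_div_iff₀ (by positivity)]
      linarith
    have hy3' : 3 ≤ ⌊(X : ℝ) ^ (1 / (r : ℝ))⌋₊ := by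
      have : (3 : ℝ) ≤ (⌊(X : ℝ) ^ (1 / (r : ℝ))⌋₊ : ℝ) := hX1.trans hy1
      exact_mod_cast this
    refine (hVb _ hy3').2.trans ?_
    rw [Fintype.card_fin]
    have hlX0 : 0 < Real.log X := Real.log_pos (by linarith)
    have hk : 1 ≤ k := Nat.one_le_iff_ne_zero.2 (NeZero.ne k)
    calc Cv / Real.log (⌊(X : ℝ) ^ (1 / (r : ℝ))⌋₊ : ℝ) ^ k
        ≤ Cv / (Real.log X / (2 * r)) := by
          apply div_le_div_of_nonneg_left hCv.le (by positivity)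
          refine hy2.trans ?_
          calc Real.log (⌊(X : ℝ) ^ (1 / (r : ℝ))⌋₊ : ℝ) =
              Real.log (⌊(X : ℝ) ^ (1 / (r : ℝ))⌋₊ : ℝ) ^ 1 := (pow_one _).symm
            _ ≤ _ := pow_le_pow_right₀ hly hk
      _ = 2 * r * Cv / Real.log X := by field_simp

end Pool.Agent.N895.PG
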